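import Pool.Agent.D0H49.AX.Tra
import Pool.Agent.D0H49.AX.Yd
import Pool.Agent.D0H13.IW.Ode
import Pool.Agent.D0H13.IW.Int
import Pool.Agent.D0H13.IW.Boot

/-!
Critical inflow at almost all scales at the singular points of axisymmetric Navier-Stokes flows.

`V` is `ℝ³` with the maximum norm, the axis of symmetry is the third coordinate axis,
`sg x = x₀² + x₁²` is the square of the distance `ρ` to the axis, `circ v = x₀ v₁ - x₁ v₀` is the
circulation `Γ = ρ v_θ`, `rad v = x₀ v₀ + x₁ v₁` is `ρ v_ρ`, and `vort v` is the curl of `v`. The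
field `v` is axisymmetric (`Axi v`) if `v (rot θ x) = rot θ (v x)` for all the rotations `rot θ`
about the axis. A point `a` is singular at the time `T` (`Sing T u a`) if `u` is unbounded in every
neighbourhood of `(T, a)`.

The inflow `-ρ u_ρ` is called critical here if it is larger than `(2 - μ) ν`; the number `2 ν` is
the one for which the barriers of the circulation break down. All the criteria that are known (to
us) in terms of a one-sided bound of the radial velocity need a subcritical inflow near the axis at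
all times. Here the inflow is only bounded near the singular point, by an arbitrarily large number
`K ν` and even only in the average over the last times, and then it must be critical in all but very
few (`A log n` among the first `n`) of the dyadic time intervals before the singular time, and this
at points of the core `ρ² < η ν (T - t)` for any given `η`: there the circulation is not zero, more
precisely `|Γ| > M ρ²`, `ω_ρ = 0` and `Γ ω_z > 0`.
-/

open MeasureTheory Set Filter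
open H459R3.NS Pool.Agent.W268.NS
open Pool.Agent.Q85.CL (Sing Blow DSl WSl)
open Pool.Agent.TH305.AX (sg circ rot Axi)
open Pool.Agent.Q67.AXI (rad)

set_option autoImplicit false

namespace Pool.Agent.Results.MP_09540e_an.InflowAtAlmostAllScales

/-- The points at a distance `ρ > 0` of the axis where `|Γ| > M ρ²`, `ω_ρ = 0` and `Γ ω_z > 0`. -/
def Core (M : ℝ) (v : V → V) (x : V) : Prop :=
  0 < sg x ∧ M * sg x < |circ v x| ∧ rad (vort v) x = 0 ∧ 0 < circ v x * vort v x 2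

/-- Let `k, b ≥ 0` be continuous and integrable on `(0, T)`, `δ > 0`, `T₀ < T`, `R > 0`, let `M` be
a number and `G` a set of natural numbers such that the average of `k` over the time interval
`(T - δ / 2 ^ j, T)` is at most `K` for all `j` in `G`, and such that there are at least `A log n`
numbers `j < n` in `G`, for all large `n`. Then there are a time `t` in `(T₀, T)`, `t > 0`, and a
point `x` in `Core M (u t)` with `‖x - a‖ ≤ R` where `ρ u_ρ < -ν k(t) - b(t) ρ²`, or where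
`ρ u_ρ < -ν (2 - μ) - (L / (δ / 2 ^ j) + b(t)) ρ²` and `T - δ / 2 ^ j < t < T - (1 - d) δ / 2 ^ j`
for some `j` in `G`. -/
def StrongInflow (ν T K L μ d A : ℝ) (u : ℝ → V → V) (a : V) : Prop :=
  ∀ (k b : ℝ → ℝ) (δ M T₀ R : ℝ) (G : Set ℕ), ContinuousOn k (Ioo 0 T) →
    IntegrableOn k (Ioo 0 T) → (∀ t ∈ Ioo 0 T, 0 ≤ k t) → ContinuousOn b (Ioo 0 T) →
    IntegrableOn b (Ioo 0 T) → (∀ t ∈ Ioo 0 T, 0 ≤ b t) → 0 < δ → T₀ < T → 0 < R →
    (∀ j ∈ G, δ / 2 ^ j < T → ∫ t in (T - δ / 2 ^ j)..T, k t ≤ K * (δ / 2 ^ j)) →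
    (∀ᶠ n : ℕ in atTop, A * Real.log n ≤ {j | j < n ∧ j ∈ G}.ncard) →
      ∃ t ∈ Ioo 0 T, T₀ < t ∧ ∃ x : V, ‖x - a‖ ≤ R ∧ Core M (u t) x ∧
        (rad (u t) x < -(ν * k t) - b t * sg x ∨
          ∃ j ∈ G, t ∈ Ioo (T - δ / 2 ^ j) (T - (1 - d) * (δ / 2 ^ j)) ∧
            rad (u t) x < -(ν * (2 - μ)) - (L / (δ / 2 ^ j) + b t) * sg x)

/-- Let `b ≥ 0` be continuous and integrable on `(0, T)`, `δ > 0`, `T₀ < T`, `R > 0`, and let `M` be
a number. If the inflow is bounded, `ρ u_ρ ≥ -ν K - b(t) ρ²` at all points of `Core M (u t)` with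
`‖x - a‖ ≤ R` and `t > T₀`, then there are infinitely many `n` such that, for all but fewer than
`A log n` of the numbers `j < n`, there are a time `t` in `(T₀, T)`, `t > 0`, with
`T - δ / 2 ^ j < t < T - (1 - d) δ / 2 ^ j` and a point `x` in `Core M (u t)` with `‖x - a‖ ≤ R`
where `ρ u_ρ < -ν (2 - μ) - (L / (δ / 2 ^ j) + b(t)) ρ²`. -/
def AlmostAllScales (ν T K L μ d A : ℝ) (u : ℝ → V → V) (a : V) : Prop :=
  ∀ (b : ℝ → ℝ) (δ M T₀ R : ℝ), ContinuousOn b (Ioo 0 T) → IntegrableOn b (Ioo 0 T) →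
    (∀ t ∈ Ioo 0 T, 0 ≤ b t) → 0 < δ → T₀ < T → 0 < R →
    (∀ t ∈ Ioo 0 T, T₀ < t → ∀ x : V, ‖x - a‖ ≤ R → Core M (u t) x →
      -(ν * K) - b t * sg x ≤ rad (u t) x) →
      ∃ᶠ n : ℕ in atTop, ({j : ℕ | j < n ∧ ¬ ∃ t ∈ Ioo 0 T, T₀ < t ∧
        t ∈ Ioo (T - δ / 2 ^ j) (T - (1 - d) * (δ / 2 ^ j)) ∧ ∃ x : V, ‖x - a‖ ≤ R ∧
          Core M (u t) x ∧
          rad (u t) x < -(ν * (2 - μ)) - (L / (δ / 2 ^ j) + b t) * sg x}.ncard : ℝ)
        < A * Real.log n

theorem StrongInflow.almostAllScales {ν T K L μ d A : ℝ} {u : ℝ → V → V} {a : V} (hK : 0 ≤ K)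
    (h : StrongInflow ν T K L μ d A u a) : AlmostAllScales ν T K L μ d A u a := by
  intro b δ M T₀ R hbc hbi hb0 hδ hT₀ hR hin
  by_contra hcon
  rw [not_frequently] at hcon
  obtain ⟨t, ht, htT, x, hx, hc, h1⟩ := h (fun _ => K) b δ M T₀ R
    {j : ℕ | ¬ ∃ t ∈ Ioo 0 T, T₀ < t ∧
        t ∈ Ioo (T - δ / 2 ^ j) (T - (1 - d) * (δ / 2 ^ j)) ∧ ∃ x : V, ‖x - a‖ ≤ R ∧
          Core M (u t) x ∧
          rad (u t) x < -(ν * (2 - μ)) - (L / (δ / 2 ^ j) + b t) * sg x}
    continuousOn_const (integrableOn_const (by simp)) (fun _ _ => hK) hbc hbi hb0 hδ hT₀ hR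
    (fun j _ _ => by
      rw [intervalIntegral.integral_const, smul_eq_mul]
      apply le_of_eq
      ring) (by
      filter_upwards [hcon] with n hn
      exact not_lt.1 hn)
  rcases h1 with h1 | ⟨j, hj, hjt, h1⟩
  · exact absurd h1 (not_lt.2 (hin t ht htT x hx hc))
  · exact hj ⟨t, ht, htT, hjt, x, hx, hc, h1⟩

/-- For all `K ≥ 0`, `L ≥ 0`, `0 < μ < 2` and `0 < d ≤ 1` there is a number `A > 0` such that the
following holds for all `ν > 0`.

(a) Let `(u, p)` be a smooth solution of the Navier-Stokes equations in `(0, T) × Ω`, `Ω` open,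
without force and with viscosity `ν`, with finite energy, finite dissipation and integrable
pressure (`DSl`), and axisymmetric: `u(t, rot θ x) = rot θ (u(t, x))` if `x` and `rot θ x` are in
`Ω`. Then `StrongInflow` and `AlmostAllScales` hold at every singular point `a ∈ Ω` of the axis.

(b) Let `(u, p)` be a smooth axisymmetric solution on `(0, T) × ℝ³` with bounded energy, finite
dissipation and locally integrable pressure (`WSl`). If `u` is unbounded near the time `T` then it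
has a singular point. All the singular points lie on the axis, and `StrongInflow` and
`AlmostAllScales` hold at each. -/
theorem result (K L μ d : ℝ) (hK : 0 ≤ K) (hL : 0 ≤ L) (hμ : 0 < μ) (hμ2 : μ < 2) (hd : 0 < d)
    (_hd1 : d ≤ 1) : ∃ A : ℝ, 0 < A ∧
    ∀ (ν T : ℝ) (u : ℝ → V → V) (p : ℝ → V → ℝ), 0 < ν →
      (∀ (E : ℝ) (Ω : Set V), DSl ν T E Ω u p →
        (∀ t ∈ Ioo 0 T, ∀ (θ : ℝ), ∀ x ∈ Ω, rot θ x ∈ Ω → u t (rot θ x) = rot θ (u t x)) →
        ∀ a ∈ Ω, a 0 = 0 → a 1 = 0 → Sing T u a →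
          StrongInflow ν T K L μ d A u a ∧ AlmostAllScales ν T K L μ d A u a) ∧
      ∀ E : ℝ, WSl ν T E u p → (∀ t ∈ Ioo 0 T, Axi (u t)) → (Blow T u → ∃ a, Sing T u a) ∧
        ∀ a, Sing T u a → a 0 = 0 ∧ a 1 = 0 ∧
          StrongInflow ν T K L μ d A u a ∧ AlmostAllScales ν T K L μ d A u a := by
  obtain ⟨A, hA, hM⟩ := D0H49.AX.main_iw D0H13.IW.t_ODE (D0H13.IW.t_INT Q67.AXI.hAlg)
    (D0H13.IW.t_BOOT Q67.AXI.hAlg Q67.AXI.hJnt Q67.AXI.hDt Q67.AXI.hU
      (D0H49.AX.t_YB Q67.AXI.hAlg Q67.AXI.hEqJ Q67.AXI.hEqO Q67.AXI.hJnt Q67.AXI.hDt Q67.AXI.hEn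
        Q67.AXI.hT1P Q67.AXI.hT2P) (D0H49.AX.t_SM Q67.AXI.hAlg Q67.AXI.hBar))
    hK hL (q := μ / 2) (by linarith) (by linarith) (d := min d (1 / 2))
    (lt_min hd (by norm_num)) (min_le_right _ _)
  have key : ∀ (ν T E : ℝ) (Ω : Set V) (u : ℝ → V → V) (p : ℝ → V → ℝ), 0 < ν →
      DSl ν T E Ω u p →
      (∀ t ∈ Ioo 0 T, ∀ (θ : ℝ), ∀ x ∈ Ω, rot θ x ∈ Ω → u t (rot θ x) = rot θ (u t x)) →
      ∀ a ∈ Ω, a 0 = 0 → a 1 = 0 → Sing T u a →
        StrongInflow ν T K L μ d A u a ∧ AlmostAllScales ν T K L μ d A u a := by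
    intro ν T E Ω u p hν h hax a ha ha0 ha1 hs
    have h1 : StrongInflow ν T K L μ d A u a := by
      intro k b δ M T₀ R G hkc hki hk0 hbc hbi hb0 hδ hT₀ hR hG hcnt
      obtain ⟨t, ht, htT, x, hx, h1, h2, h3, h4, h5⟩ := D0H49.AX.iw_D hM (μ := μ) (by ring)
        (min_le_left d (1 / 2)) Q67.AXI.hTra hν h hax ha ha0 ha1 hs k b δ M T₀ R G hkc hki hk0 hbc
        hbi hb0 hδ hT₀ hR hG hcnt
      exact ⟨t, ht, htT, x, hx, ⟨h1, h2, h3, h4⟩, h5⟩
    exact ⟨h1, h1.almostAllScales hK⟩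
  refine ⟨A, hA, fun ν T u p hν => ⟨fun E Ω h hax a ha ha0 ha1 hs =>
    key ν T E Ω u p hν h hax a ha ha0 ha1 hs,
    fun E h hax => ⟨fun hB => Q85.CL.sing_whole Q95.CL.far Q285.CL.wsc hν h hB,
      fun a hs => ?_⟩⟩⟩
  obtain ⟨h0, h1⟩ := Q67.AXI.axis_W Q67.AXI.hTra Q67.AXI.hWho Q67.AXI.hGR hν h hax hs
  exact ⟨h0, h1, key ν T E _ u p hν (Q85.CL.whole_D h a)
    (fun t ht θ x _ _ => hax t ht θ x) a (Metric.mem_ball_self (by norm_num)) h0 h1 hs⟩

end Pool.Agent.Results.MP_09540e_an.InflowAtAlmostAllScales
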