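import Pool.Agent.D0H28.OV.Fin6

/-!
One-sided criteria for axisymmetric Navier-Stokes flows with swirl, in terms of `ω_θ / ρ` and of
its source `∂_z (u_θ² / ρ²)`.

`V` is `ℝ³` with the maximum norm, the axis of symmetry is the third coordinate axis,
`sg x = x₀² + x₁²` is the square of the distance `ρ` to the axis, `circ v = x₀ v₁ - x₁ v₀` is
`ρ v_θ`, `vort v` is the curl of `v`, and `pd i` is the `i`-th partial derivative. The field `v` is
axisymmetric (`Axi v`) if `v (rot θ x) = rot θ (v x)` for all the rotations `rot θ` about the axis.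
A point `a` is singular at the time `T` (`Sing T u a`) if `u` is unbounded in every neighbourhood
of `(T, a)`. Below `omr` is the function `Ω = ω_θ / ρ`, which satisfies
`∂_t Ω + u · ∇ Ω = ν (Δ Ω + (2 / ρ) ∂_ρ Ω) + ∂_z (u_θ² / ρ²)`. The integrals of `|Ω|` in space and
of `|∂_z (u_θ² / ρ²)|` in space-time are invariant under the scaling of the equations.

At a singular point `a` of the axis these critical integrals are infinite near `(T, a)` for the
positive and for the negative part separately. For the source this holds even over the set where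
`σ Ω < λ` (negative part of `σ ∂_z (u_θ² / ρ²)`, `σ = ± 1`), for every real number `λ`; so there is
no singularity if `∂_z (u_θ² / ρ²)` is bounded from one side by a function integrable in
space-time, or if `Ω` is bounded from one side, near `(T, a)`.

Proof: each of the converse conditions bounds the integral of `|Ω|` over a cylinder, by the
equation of convex functions of `Ω` and the sign of the flux at the axis; this bounds the stream
function in a critical Morrey space; then the circulation `ρ u_θ` satisfies a parabolic equation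
with a drift which is the curl of a function of that space and decays like a power of `ρ` at the
axis, which implies regularity. Proof modules by helper28, helper65 (`Pool.Agent.D0H65.OV`) and
helper33 (`Pool.Agent.D0H33.OV`). Further conditions of this kind (levels of `Ω`, moving planes)
are in `Pool.Agent.D0H28.OV.Fin5`; they are not part of this theorem.
-/

open MeasureTheory Set
open H459R3.NS Pool.Agent.W268.NS
open Pool.Agent.Q85.CL (Sing Blow DSl WSl)
open Pool.Agent.TH305.AX (sg circ rot Axi)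

set_option autoImplicit false

namespace Pool.Agent.Results.MP_09540e_an.OneSidedVorticity

/-- `ω_θ / ρ`, off the axis. -/
noncomputable def omr (v : V → V) (x : V) : ℝ := circ (vort v) x / sg x

/-- `v_θ / ρ`, off the axis. -/
noncomputable def utr (v : V → V) (x : V) : ℝ := circ v x / sg x

/-- The open cylinder with the radius and the half height `R` around the point `a` of the axis. -/
def Cyl (a : V) (R : ℝ) : Set V := {x | sg x < R ^ 2 ∧ |x 2 - a 2| < R}

/-- For all small cylinders: the integral of the negative part of `σ ω_θ / ρ` over the cylinder is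
unbounded as `t → T`, or its integral over the axis and the time is infinite (on the axis
`ω_θ / ρ` is half of the third component of the curl of `ω`). -/
def PartUnbounded (T : ℝ) (Ω : Set V) (u : ℝ → V → V) (a : V) (σ : ℝ) : Prop :=
  ∀ M T₀ R : ℝ, T₀ < T → 0 < R → Metric.closedBall a (2 * R) ⊆ Ω →
    (∃ t ∈ Ioo 0 T, T₀ < t ∧ M < ∫ x in Cyl a R, max (-(σ * omr (u t) x)) 0) ∨
    ∃ t₁ t₂ : ℝ, 0 < t₁ ∧ T₀ < t₁ ∧ t₁ ≤ t₂ ∧ t₂ < T ∧
      M < ∫ t in t₁..t₂, ∫ z in Ioo (a 2 - R) (a 2 + R),
        max (-(σ * vort (vort (u t)) ![0, 0, z] 2)) 0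

/-- For every `λ` the negative part of `σ ∂_z (u_θ² / ρ²)` has, near `(T, a)`, infinite integral
over the set of the `(t, x)` with `σ ω_θ / ρ < λ`. -/
def SourceUnbounded (T : ℝ) (u : ℝ → V → V) (a : V) (σ : ℝ) : Prop :=
  ∀ lam T₀ R : ℝ, 0 ≤ T₀ → T₀ < T → 0 < R →
    ∫⁻ t in Ioo T₀ T, ∫⁻ x in {x : V | ‖x - a‖ ≤ R ∧ σ * omr (u t) x < lam},
      ENNReal.ofReal (-(σ * pd 2 (fun y => utr (u t) y ^ 2) x)) = ⊤

/-- (a) Let `(u, p)` be a smooth solution of the Navier-Stokes equations in `(0, T) × Ω`, `Ω` open,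
without force and with viscosity `ν`, with finite energy, finite dissipation and integrable
pressure (`DSl`), and axisymmetric: `u(t, rot θ x) = rot θ (u(t, x))` if `x` and `rot θ x` are in
`Ω`. Let `a ∈ Ω` be a singular point of the axis. Then `PartUnbounded` and `SourceUnbounded` hold,
for `σ = 1` and for `σ = -1`.

(b) Let `(u, p)` be a smooth axisymmetric solution on `(0, T) × ℝ³` with bounded energy, finite
dissipation and locally integrable pressure (`WSl`). If `u` is unbounded near the time `T` then it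
has a singular point. All the singular points lie on the axis and the same holds at each. -/
theorem result (ν T : ℝ) (u : ℝ → V → V) (p : ℝ → V → ℝ) (hν : 0 < ν) :
    (∀ (E : ℝ) (Ω : Set V), DSl ν T E Ω u p →
      (∀ t ∈ Ioo 0 T, ∀ (θ : ℝ), ∀ x ∈ Ω, rot θ x ∈ Ω → u t (rot θ x) = rot θ (u t x)) →
      ∀ a ∈ Ω, a 0 = 0 → a 1 = 0 → Sing T u a → ∀ σ : ℝ, σ = 1 ∨ σ = -1 →
        PartUnbounded T Ω u a σ ∧ SourceUnbounded T u a σ) ∧
    ∀ E : ℝ, WSl ν T E u p → (∀ t ∈ Ioo 0 T, Axi (u t)) → (Blow T u → ∃ a, Sing T u a) ∧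
      ∀ a, Sing T u a → a 0 = 0 ∧ a 1 = 0 ∧ ∀ σ : ℝ, σ = 1 ∨ σ = -1 →
        PartUnbounded T univ u a σ ∧ SourceUnbounded T u a σ := by
  refine ⟨fun E Ω h hax a ha ha0 ha1 hs σ hσ =>
      ⟨fun M T₀ R hT₀ hR hsub => D0H28.OV.one_D hν h hax ha0 ha1 hs hσ hT₀ hR hsub,
      fun lam T₀ R h0 hT₀ hR => D0H28.OV.src_D hν h hax ha ha0 ha1 hs hσ h0 hT₀ hR⟩,
    fun E h hax => ⟨fun hB => Q85.CL.sing_whole Q95.CL.far Q285.CL.wsc hν h hB,
      fun a hs => ?_⟩⟩
  obtain ⟨h0, h1⟩ := Q67.AXI.axis_W Q67.AXI.hTra Q67.AXI.hWho Q67.AXI.hGR hν h hax hs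
  have hD : ∀ R : ℝ, DSl ν T E (Metric.ball 0 R) u p :=
    Q67.AXI.hWho ν T E u p hν hs.pos h
  have hax' : ∀ R : ℝ, ∀ t ∈ Ioo 0 T, ∀ (θ : ℝ), ∀ x ∈ Metric.ball (0 : V) R,
      rot θ x ∈ Metric.ball (0 : V) R → u t (rot θ x) = rot θ (u t x) :=
    fun R t ht θ x _ _ => hax t ht θ x
  have hcb : ∀ R : ℝ, Metric.closedBall a (2 * R) ⊆ Metric.ball 0 (‖a‖ + 2 * R + 1) := by
    intro R x hx
    rw [Metric.mem_closedBall, dist_eq_norm] at hx
    rw [Metric.mem_ball, dist_zero_right]
    have := norm_le_norm_add_norm_sub' x a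
    linarith
  have ha : a ∈ Metric.ball (0 : V) (‖a‖ + 1) := by
    rw [Metric.mem_ball, dist_zero_right]
    linarith
  exact ⟨h0, h1, fun σ hσ => ⟨fun M T₀ R hT₀ hR _ =>
      D0H28.OV.one_D hν (hD _) (hax' _) h0 h1 hs hσ hT₀ hR (hcb R),
    fun lam T₀ R h0' hT₀ hR => D0H28.OV.src_D hν (hD _) (hax' _) ha h0 h1 hs hσ h0' hT₀ hR⟩⟩

end Pool.Agent.Results.MP_09540e_an.OneSidedVorticity
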