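import Pool.Agent.D0H31.AT.Fin

/-!
The inflow at the singular points of axisymmetric Navier-Stokes flows is of the second type.

`V` is `ℝ³` with the maximum norm, the axis of symmetry is the third coordinate axis,
`sg x = x₀² + x₁²` is the square of the distance `ρ` to the axis, `circ v = x₀ v₁ - x₁ v₀` is the
circulation `Γ = ρ v_θ`, `rad v = x₀ v₀ + x₁ v₁` is `ρ v_ρ`, and `vort v` is the curl of `v`. The
field `v` is axisymmetric (`Axi v`) if `v (rot θ x) = rot θ (v x)` for all the rotations `rot θ`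
about the axis. A point `a` is singular at the time `T` (`Sing T u a`) if `u` is unbounded in every
neighbourhood of `(T, a)`.

Near a singular point of the axis there are, at times arbitrarily close to `T`, points with
non-negligible circulation, `|Γ| > C |log ρ²| ^ (-α)`, `α > 3 / 2`, with `ω_ρ = 0` and
`Γ ω_z > 0`, and with the inflow

`-u_ρ > (2 - ε) ν / ρ + k √(ν log log (1 / (ν (T - t))) / (T - t)) + (c / (T - t) + B(t)) ρ`

whenever `c + k² < 1 / 2`, `ε > 0` and `B` is continuous and integrable. So an arbitrarily large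
one-sided bound of the first type, `u_ρ ≥ -M √(ν / (T - t))`, excludes singularities: no bounds of
the outflow, of `u_z` and of `u_θ` are needed. The strength `-ρ u_ρ / ν` of the inflow is unbounded,
or it exceeds `2 - ε` inside of every paraboloid `ρ² < η (T - t)`.

The proof: a barrier for the circulation which is the sum of
`θ ^ (-α) (1 - exp (-K (Y ^ b + √Y)))`, where `θ = log (1 / (T - t))`, `Y = E ρ² / (T - t)`,
`K = k √(log θ) + K₀`, and of a multiple of `λ ^ (-α)`, `λ ≈ log ((T - t) ^ γ / ρ²)`. At bounded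
`Y` the concavity of the first part absorbs a strong inflow, with a gain of the order
`exp (-K √Y)`, at large `Y` the second part compensates the decay of the factor `θ ^ (-α)`.
-/

open MeasureTheory Set
open H459R3.NS Pool.Agent.W268.NS
open Pool.Agent.Q85.CL (Sing Blow DSl WSl)
open Pool.Agent.TH305.AX (sg circ rot Axi)
open Pool.Agent.Q67.AXI (rad)

set_option autoImplicit false

namespace Pool.Agent.Results.MP_09540e_an.TypeTwoInflow

/-- For all functions `B`, continuous and integrable on `(0, T)`, all `c, k ≥ 0` with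
`c + k² < 1 / 2`, all `ε > 0`, `α > 3 / 2`, `C ≥ 0`, `T₀ < T` and `R > 0` there are a time `t` in
`(T₀, T)`, `t > 0`, and a point `x` with `‖x - a‖ ≤ R`, at the distance `ρ ∈ (0, 1)` of the axis,
with `ρ² < (ν (T - t)) ^ (2 c)`, `|Γ| > C |log ρ²| ^ (-α)`, `ω_ρ = 0`, `Γ ω_z > 0` and
`ρ u_ρ < -ν (2 - ε) - k √(ν log log (1 / (ν (T - t))) ρ² / (T - t)) - (c / (T - t) + B(t)) ρ²`. -/
def StrongInflow (ν T : ℝ) (u : ℝ → V → V) (a : V) : Prop :=
  ∀ (B : ℝ → ℝ) (c k ε α C T₀ R : ℝ), ContinuousOn B (Ioo 0 T) → IntegrableOn B (Ioo 0 T) →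
    0 ≤ c → 0 ≤ k → c + k ^ 2 < 1 / 2 → 0 < ε → 3 / 2 < α → 0 ≤ C → T₀ < T → 0 < R →
      ∃ t ∈ Ioo 0 T, T₀ < t ∧ ∃ x : V, ‖x - a‖ ≤ R ∧ 0 < sg x ∧ sg x < 1 ∧
        sg x < (ν * (T - t)) ^ (2 * c) ∧
        C * |Real.log (sg x)| ^ (-α) < |circ (u t) x| ∧
        rad (vort (u t)) x = 0 ∧ 0 < circ (u t) x * vort (u t) x 2 ∧
        rad (u t) x < -(ν * (2 - ε))
          - k * √(ν * Real.log (Real.log (1 / (ν * (T - t)))) * (sg x / (T - t)))
          - (c / (T - t) + B t) * sg x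

/-- The inflow is of the second type: for every `M` there are, at times arbitrarily close to `T` and
arbitrarily close to `a`, points `x` at the distance `ρ > 0` of the axis with
`u_ρ < -M √(ν / (T - t))`, that is, `ρ u_ρ < -M √(ν ρ² / (T - t))`. -/
def SecondType (ν T : ℝ) (u : ℝ → V → V) (a : V) : Prop :=
  ∀ M T₀ R : ℝ, T₀ < T → 0 < R → ∃ t ∈ Ioo 0 T, T₀ < t ∧ ∃ x : V, ‖x - a‖ ≤ R ∧ 0 < sg x ∧
    rad (u t) x < -(M * √(ν * (sg x / (T - t))))

/-- For all numbers `A`, `η > 0` and `ε > 0` there are, at times arbitrarily close to `T` and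
arbitrarily close to `a`, points with `ρ u_ρ < -ν A`, or points with `ρ u_ρ < -ν (2 - ε)` and
`ρ² < η (T - t)`. -/
def DeepOrUnbounded (ν T : ℝ) (u : ℝ → V → V) (a : V) : Prop :=
  ∀ A η ε T₀ R : ℝ, 0 < η → 0 < ε → T₀ < T → 0 < R →
    ∃ t ∈ Ioo 0 T, T₀ < t ∧ ∃ x : V, ‖x - a‖ ≤ R ∧ 0 < sg x ∧
      (rad (u t) x < -(ν * A) ∨ (sg x < η * (T - t) ∧ rad (u t) x < -(ν * (2 - ε))))

theorem loglog_large (ν T X : ℝ) (hν : 0 < ν) : ∃ T₁ : ℝ, T₁ < T ∧ ∀ t : ℝ, T₁ < t → t < T →
    X ≤ Real.log (Real.log (1 / (ν * (T - t)))) := by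
  refine ⟨T - Real.exp (-Real.exp X) / ν, ?_, fun t h1 h2 => ?_⟩
  · have : 0 < Real.exp (-Real.exp X) / ν := by positivity
    linarith
  · have h3 : 0 < ν * (T - t) := mul_pos hν (by linarith)
    have h4 : ν * (T - t) ≤ Real.exp (-Real.exp X) := by
      have : T - t < Real.exp (-Real.exp X) / ν := by linarith
      rw [lt_div_iff₀ hν] at this
      linarith
    have h5 : Real.exp X ≤ Real.log (1 / (ν * (T - t))) := by
      rw [one_div, Real.log_inv]
      have := Real.log_le_log h3 h4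
      rw [Real.log_exp] at this
      linarith
    have h6 := Real.log_le_log (Real.exp_pos X) h5
    rwa [Real.log_exp] at h6

theorem StrongInflow.secondType {ν T : ℝ} {u : ℝ → V → V} {a : V} (hν : 0 < ν)
    (h : StrongInflow ν T u a) : SecondType ν T u a := by
  intro M T₀ R hT₀ hR
  obtain ⟨T₁, hT₁, hT₁'⟩ := loglog_large ν T ((2 * M) ^ 2) hν
  obtain ⟨t, ht, htT, x, hx, hs, -, -, -, -, -, hrd⟩ := h (fun _ => 0) 0 (1 / 2) 2 2 0
    (max T₀ T₁) R continuousOn_const integrableOn_zero le_rfl (by norm_num) (by norm_num)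
    (by norm_num) (by norm_num) le_rfl (max_lt hT₀ hT₁) hR
  refine ⟨t, ht, (le_max_left _ _).trans_lt htT, x, hx, hs, hrd.trans_le ?_⟩
  have hTt : 0 < T - t := by linarith [ht.2]
  have h1 := hT₁' t ((le_max_right _ _).trans_lt htT) ht.2
  have h2 : 0 ≤ ν * (sg x / (T - t)) := by positivity
  have h3 : 2 * |M| * √(ν * (sg x / (T - t)))
      ≤ √(ν * Real.log (Real.log (1 / (ν * (T - t)))) * (sg x / (T - t))) := by
    apply Real.le_sqrt_of_sq_le
    rw [mul_pow, Real.sq_sqrt h2, mul_pow, sq_abs]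
    have h4 := mul_le_mul_of_nonneg_right h1 h2
    calc 2 ^ 2 * M ^ 2 * (ν * (sg x / (T - t))) = (2 * M) ^ 2 * (ν * (sg x / (T - t))) := by ring
      _ ≤ Real.log (Real.log (1 / (ν * (T - t)))) * (ν * (sg x / (T - t))) := h4
      _ = _ := by ring
  have h4 : M * √(ν * (sg x / (T - t))) ≤ |M| * √(ν * (sg x / (T - t))) :=
    mul_le_mul_of_nonneg_right (le_abs_self M) (Real.sqrt_nonneg _)
  have h5 : (0 / (T - t) + (fun _ : ℝ => (0 : ℝ)) t) * sg x = 0 := by simp
  rw [h5]
  linarith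

theorem StrongInflow.deepOrUnbounded {ν T : ℝ} {u : ℝ → V → V} {a : V} (hν : 0 < ν)
    (h : StrongInflow ν T u a) : DeepOrUnbounded ν T u a := by
  intro A η ε T₀ R hη hε hT₀ hR
  obtain ⟨T₁, hT₁, hT₁'⟩ := loglog_large ν T ((2 * A) ^ 2 * ν / η) hν
  obtain ⟨t, ht, htT, x, hx, hs, -, -, -, -, -, hrd⟩ := h (fun _ => 0) 0 (1 / 2) (min ε 2) 2 0
    (max T₀ T₁) R continuousOn_const integrableOn_zero le_rfl (by norm_num) (by norm_num)
    (lt_min hε (by norm_num)) (by norm_num) le_rfl (max_lt hT₀ hT₁) hR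
  have hTt : 0 < T - t := by linarith [ht.2]
  have h1 := hT₁' t ((le_max_right _ _).trans_lt htT) ht.2
  have h5 : (0 / (T - t) + (fun _ : ℝ => (0 : ℝ)) t) * sg x = 0 := by simp
  rw [h5] at hrd
  refine ⟨t, ht, (le_max_left _ _).trans_lt htT, x, hx, hs, ?_⟩
  have hme : min ε 2 ≤ ε := min_le_left _ _
  have hm2 : min ε 2 ≤ 2 := min_le_right _ _
  have h6 : 0 ≤ ν * (2 - min ε 2) := mul_nonneg hν.le (by linarith)
  rcases lt_or_ge (sg x) (η * (T - t)) with h2 | h2
  · right
    refine ⟨h2, hrd.trans_le ?_⟩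
    have h3 := Real.sqrt_nonneg
      (ν * Real.log (Real.log (1 / (ν * (T - t)))) * (sg x / (T - t)))
    have h4 : ν * (2 - ε) ≤ ν * (2 - min ε 2) := mul_le_mul_of_nonneg_left (by linarith) hν.le
    linarith
  · left
    refine hrd.trans_le ?_
    have h7 : η ≤ sg x / (T - t) := by rwa [le_div_iff₀ hTt]
    have h8 : 2 * |A| * ν ≤ √(ν * Real.log (Real.log (1 / (ν * (T - t)))) * (sg x / (T - t))) := by
      apply Real.le_sqrt_of_sq_le
      rw [div_le_iff₀ hη] at h1
      have h9 : 0 ≤ Real.log (Real.log (1 / (ν * (T - t)))) := by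
        have h10 : 0 ≤ (2 * A) ^ 2 * ν := by positivity
        by_contra hc
        push Not at hc
        have := mul_neg_of_neg_of_pos hc hη
        linarith
      have h11 : Real.log (Real.log (1 / (ν * (T - t)))) * η
          ≤ Real.log (Real.log (1 / (ν * (T - t)))) * (sg x / (T - t)) :=
        mul_le_mul_of_nonneg_left h7 h9
      calc (2 * |A| * ν) ^ 2 = ν * ((2 * A) ^ 2 * ν) := by
            rw [mul_pow, mul_pow, sq_abs]; ring
        _ ≤ ν * (Real.log (Real.log (1 / (ν * (T - t)))) * (sg x / (T - t))) :=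
            mul_le_mul_of_nonneg_left (h1.trans h11) hν.le
        _ = _ := by ring
    have h12 : ν * A ≤ |A| * ν := by
      rw [mul_comm]
      exact mul_le_mul_of_nonneg_right (le_abs_self A) hν.le
    linarith

/-- Let `ν > 0`.

(a) Let `(u, p)` be a smooth solution of the Navier-Stokes equations in `(0, T) × Ω`, `Ω` open,
without force and with viscosity `ν`, with finite energy, finite dissipation and integrable
pressure (`DSl`), and axisymmetric: `u(t, rot θ x) = rot θ (u(t, x))` if `x` and `rot θ x` are in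
`Ω`. Then `StrongInflow`, `SecondType` and `DeepOrUnbounded` hold at every singular point `a ∈ Ω` of
the axis.

(b) Let `(u, p)` be a smooth axisymmetric solution on `(0, T) × ℝ³` with bounded energy, finite
dissipation and locally integrable pressure (`WSl`). If `u` is unbounded near the time `T` then it
has a singular point. All the singular points lie on the axis and `StrongInflow`, `SecondType` and
`DeepOrUnbounded` hold at each. -/
theorem result : ∀ (ν T : ℝ) (u : ℝ → V → V) (p : ℝ → V → ℝ), 0 < ν →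
    (∀ (E : ℝ) (Ω : Set V), DSl ν T E Ω u p →
      (∀ t ∈ Ioo 0 T, ∀ (θ : ℝ), ∀ x ∈ Ω, rot θ x ∈ Ω → u t (rot θ x) = rot θ (u t x)) →
      ∀ a ∈ Ω, a 0 = 0 → a 1 = 0 → Sing T u a →
        StrongInflow ν T u a ∧ SecondType ν T u a ∧ DeepOrUnbounded ν T u a) ∧
    ∀ E : ℝ, WSl ν T E u p → (∀ t ∈ Ioo 0 T, Axi (u t)) → (Blow T u → ∃ a, Sing T u a) ∧
      ∀ a, Sing T u a → a 0 = 0 ∧ a 1 = 0 ∧
        StrongInflow ν T u a ∧ SecondType ν T u a ∧ DeepOrUnbounded ν T u a := by
  have key : ∀ (ν T : ℝ) (u : ℝ → V → V) (a : V), 0 < ν → StrongInflow ν T u a →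
      StrongInflow ν T u a ∧ SecondType ν T u a ∧ DeepOrUnbounded ν T u a :=
    fun ν T u a hν h => ⟨h, h.secondType hν, h.deepOrUnbounded hν⟩
  intro ν T u p hν
  refine ⟨fun E Ω h hax a ha ha0 ha1 hs => key ν T u a hν
    (Pool.Agent.D0H31.AT.inflT_D hν h hax ha ha0 ha1 hs),
    fun E h hax => ⟨fun hB => Q85.CL.sing_whole Q95.CL.far Q285.CL.wsc hν h hB,
      fun a hs => ?_⟩⟩
  obtain ⟨h0, h1⟩ := Q67.AXI.axis_W Q67.AXI.hTra Q67.AXI.hWho Q67.AXI.hGR hν h hax hs
  exact ⟨h0, h1, key ν T u a hν (Pool.Agent.D0H31.AT.inflT_D hν (Q85.CL.whole_D h a)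
    (fun t ht θ x _ _ => hax t ht θ x) (Metric.mem_ball_self (by norm_num)) h0 h1 hs)⟩

end Pool.Agent.Results.MP_09540e_an.TypeTwoInflow
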