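import Pool.Agent.Q67.AXI.Fin4
import Pool.Agent.D0H33.AXF.AllG

/-!
Radial fluxes at the singular points of axisymmetric Navier-Stokes flows: unbounded in both
directions, at almost all scales.

`V` is `ℝ³` with the maximum norm, the axis of symmetry is the third coordinate axis, and the
field `v` is axisymmetric (`Axi v`) if `v (rot θ x) = rot θ (v x)` for all the rotations `rot θ`
about the axis. Then `v ![ρ, 0, z] 0` is the radial component `v_ρ(ρ, z)` at the distance `ρ > 0`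
of the axis and the height `z`, so `2 π ρ ∫_{z₁}^{z₂} v_ρ(ρ, z) dz` is the outward flux through the
band `z₁ < z < z₂` of the cylinder of radius `ρ`. A point `a` is singular at the time `T`
(`Sing T u a`) if `u` is unbounded in every neighbourhood of `(T, a)`.

Let `e(t, ρ) ≥ 0` be a threshold. Near a singular point of the axis, at times arbitrarily close to
`T` and at arbitrarily small distances `ρ`, there are a band with outward flux larger than
`2 π ρ e(t, ρ)` and a band with inward flux larger than this, both at the same time and on the same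
cylinder. The threshold may be any constant, or any function in the critical Morrey class
`∫_0^s e(t, ρ)⁶ ρ dρ ≤ M s²`, `M` arbitrary. More generally this inequality is needed only at the
scales `s = 2⁻ʲ`, `j ∈ G`, with constants `M_j` which may depend on the scale, if
`∑_{j ∈ G, j < n} d(M_j) ≥ log n` for large `n`, where `d` is a universal positive decreasing
function. So it is enough that `G` has `log n / d(M)` elements below `n` (no condition at all
is imposed at the other scales), and `M_j` may tend to infinity slowly. The threshold may also be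
any function `ν / 3 + B(t) ρ` with `B` continuous and square integrable. There is no condition on
the swirl. In other words, a bound of the fluxes from one side, where the side may depend on `t`
and `ρ`, excludes singular points even if the bound holds only at a sparse set of scales.

Proof for the Morrey class. On each cylinder the total flux between two heights without singular
points is controlled, so a bound of the fluxes in one direction bounds the fluxes in the other one,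
and with them the Stokes stream function; the energy inequality, the logarithmic estimate and the
first lemma of De Giorgi for the circulation give the decay of its supremum by a factor at each good
scale (with the modules of the project OV by helper28 and helper65); at the other scales nothing is
lost. The decay `(log (1 / ρ))⁻²` is enough for regularity.
-/

open MeasureTheory Set Filter
open H459R3.NS Pool.Agent.W268.NS
open Pool.Agent.Q85.CL (Sing Blow DSl WSl)
open Pool.Agent.TH305.AX (rot Axi)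

set_option autoImplicit false

namespace Pool.Agent.Results.MP_09540e_an.UnboundedFluxes

/-- The admissible thresholds `e(t, ρ) ≥ 0`: either there are a set `G` of natural numbers and
numbers `M_j ≥ 0`, `j ∈ G`, such that `∫_0^s e(t, ρ)⁶ ρ dρ ≤ M_j ν⁶ s²` for all `t` near `T` and all
small `s = 2⁻ʲ`, `j ∈ G`, and `∑_{j ∈ G, j < n} d(M_j) ≥ log n` for all large `n` (for instance, all
bounded measurable functions `e`), or `e(t, ρ) ≤ ν / 3 + B(t) ρ` for some function `B ≥ 0` which is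
continuous on `(0, T)` and has an integrable square. -/
def Threshold (d : ℝ → ℝ) (ν T : ℝ) (e : ℝ → ℝ → ℝ) : Prop :=
  (∀ t ρ, 0 ≤ e t ρ) ∧
    (((∀ t ∈ Ioo 0 T, Measurable (e t)) ∧ ∃ (G : Set ℕ) (M : ℕ → ℝ) (R₁ T₁ : ℝ),
      0 < R₁ ∧ T₁ < T ∧ (∀ j ∈ G, 0 ≤ M j) ∧
      (∀ᶠ n : ℕ in atTop, Real.log n ≤ ∑ j ∈ Finset.range n, G.indicator (fun j => d (M j)) j) ∧
      ∀ t ∈ Ioo 0 T, T₁ < t → ∀ j ∈ G, (1 / 2 : ℝ) ^ j < R₁ →
        IntegrableOn (fun ρ => e t ρ ^ 6 * ρ) (Ioo 0 ((1 / 2) ^ j)) ∧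
        ∫ ρ in Ioo 0 ((1 / 2) ^ j), e t ρ ^ 6 * ρ ≤ M j * ν ^ 6 * ((1 / 2) ^ j) ^ 2) ∨
    ∃ B : ℝ → ℝ, ContinuousOn B (Ioo 0 T) ∧ IntegrableOn (fun t => B t ^ 2) (Ioo 0 T) ∧
      (∀ t, 0 ≤ B t) ∧ ∀ t ∈ Ioo 0 T, ∀ ρ, 0 < ρ → e t ρ ≤ ν / 3 + B t * ρ)

/-- For all admissible thresholds `e`, all `T₀ < T` and all `R > 0` there are a time `t` in
`(T₀, T)`, `t > 0`, and a radius `0 < ρ < R` such that `∫ u_ρ(t, ρ, z) dz > e(t, ρ)` for some
interval of heights in `[a₂ - R, a₂ + R]` and `∫ u_ρ(t, ρ, z) dz < -e(t, ρ)` for another one. -/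
def LargeFluxes (d : ℝ → ℝ) (ν T : ℝ) (u : ℝ → V → V) (a : V) : Prop :=
  ∀ (e : ℝ → ℝ → ℝ) (T₀ R : ℝ), Threshold d ν T e → T₀ < T → 0 < R →
    ∃ t ∈ Ioo 0 T, T₀ < t ∧ ∃ ρ ∈ Ioo 0 R,
      (∃ z₁ z₂ : ℝ, a 2 - R ≤ z₁ ∧ z₁ ≤ z₂ ∧ z₂ ≤ a 2 + R ∧
        e t ρ < ∫ z in z₁..z₂, u t ![ρ, 0, z] 0) ∧
      ∃ z₁ z₂ : ℝ, a 2 - R ≤ z₁ ∧ z₁ ≤ z₂ ∧ z₂ ≤ a 2 + R ∧
        ∫ z in z₁..z₂, u t ![ρ, 0, z] 0 < -e t ρ

lemma exists_anti (d : ℝ → ℝ) (hd : ∀ M, 0 < d M) : ∃ d' : ℝ → ℝ, (∀ M, 0 < d' M) ∧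
    Antitone d' ∧ ∀ M, ∃ M', M ≤ M' ∧ d' M ≤ d M' := by
  refine ⟨fun M => (Finset.range (⌈M⌉₊ + 1)).inf' ⟨0, by simp⟩ fun i => d i, fun M => ?_,
    fun x y hxy => ?_, fun M => ⟨⌈M⌉₊, Nat.le_ceil M, ?_⟩⟩
  · show 0 < (Finset.range (⌈M⌉₊ + 1)).inf' ⟨0, by simp⟩ fun i => d i
    rw [Finset.lt_inf'_iff]
    exact fun i _ => hd _
  · refine Finset.inf'_mono _ ?_ _
    intro i hi
    have := Nat.ceil_mono hxy
    rw [Finset.mem_range] at hi ⊢
    omega
  · exact Finset.inf'_le (fun i : ℕ => d i) (by simp)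

/-- The bound of the fluxes for the function `d` of the package. -/
def Core (d : ℝ → ℝ) : Prop := ∀ (ν T E : ℝ) (Ω : Set V)
    (u : ℝ → V → V) (p : ℝ → V → ℝ), 0 < ν → DSl ν T E Ω u p →
    (∀ t ∈ Ioo 0 T, ∀ (θ : ℝ), ∀ x ∈ Ω, rot θ x ∈ Ω → u t (rot θ x) = rot θ (u t x)) →
    ∀ a ∈ Ω, a 0 = 0 → a 1 = 0 → Sing T u a → LargeFluxes d ν T u a

lemma key : ∃ d : ℝ → ℝ, (∀ M, 0 < d M) ∧ Antitone d ∧ Core d := by
  obtain ⟨d₀, hd₀, hF⟩ := D0H33.AXF.flows_G
  obtain ⟨d, hd, han, hdd⟩ := exists_anti d₀ hd₀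
  choose N hN1 hN2 using hdd
  refine ⟨d, hd, han, ?_⟩
  intro ν T E Ω u p hν h hax a ha ha0 ha1 hs e T₀ R ⟨he0, he⟩ hT₀ hR
  have key : ∃ t ∈ Ioo 0 T, T₀ < t ∧ ∃ ρ ∈ Ioo 0 R,
      ¬ D0H33.AXF.Flx (u t) (a 2 - R) (a 2 + R) (e t ρ) ρ := by
    rcases he with ⟨hem, G, M, R₁, T₁, hR₁, hT₁, hM0, hG, hM⟩ | ⟨B, hBc, hBi, hB0, hB⟩
    · obtain ⟨t, ht, ht0, ρ, hρ, hn⟩ := hF ν T E Ω u p hν h hax a ha ha0 ha1 hs e G
        (fun j => N (M j)) (max T₀ T₁) (min R R₁) (fun j hj => (hM0 j hj).trans (hN1 _)) he0 hem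
        (max_lt hT₀ hT₁) (lt_min hR hR₁)
        (fun t ht ht0 j hj hjR => by
          obtain ⟨q1, q2⟩ := hM t ht ((le_max_right _ _).trans_lt ht0) j hj
            (hjR.trans_le (min_le_right _ _))
          refine ⟨q1, q2.trans ?_⟩
          refine mul_le_mul_of_nonneg_right ?_ (by positivity)
          exact mul_le_mul_of_nonneg_right (hN1 _) (by positivity))
        (by
          filter_upwards [hG] with n hn
          refine hn.trans (Finset.sum_le_sum fun j _ => ?_)
          exact indicator_le_indicator (hN2 _))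
      refine ⟨t, ht, (le_max_left _ _).trans_lt ht0, ρ, ⟨hρ.1, hρ.2.trans_le (min_le_left _ _)⟩,
        fun hf => hn ?_⟩
      have := min_le_left R R₁
      exact D0H33.AXF.Flx_anti hf (by linarith) (by linarith) le_rfl
    · obtain ⟨t, ht, ht0, ρ, hρ, hn⟩ := D0H33.AXF.flows_D D0H33.AXF.hMainF Q67.AXI.hTra hν h hax
        ha ha0 ha1 hs B T₀ R hBc hBi hB0 hT₀ hR
      exact ⟨t, ht, ht0, ρ, hρ, fun hf =>
        hn (D0H33.AXF.Flx_anti hf le_rfl le_rfl (hB t ht ρ hρ.1))⟩
  obtain ⟨t, ht, ht0, ρ, hρ, hn⟩ := key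
  refine ⟨t, ht, ht0, ρ, hρ, ?_⟩
  unfold D0H33.AXF.Flx at hn
  push Not at hn
  exact hn

/-- There is a universal positive decreasing function `d` with the following properties. Let
`ν > 0`.

(a) Let `(u, p)` be a smooth solution of the Navier-Stokes equations in `(0, T) × Ω`, `Ω` open,
without force and with viscosity `ν`, with finite energy, finite dissipation and integrable
pressure (`DSl`), and axisymmetric: `u(t, rot θ x) = rot θ (u(t, x))` if `x` and `rot θ x` are in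
`Ω`. Then `LargeFluxes` holds at every singular point `a ∈ Ω` of the axis.

(b) Let `(u, p)` be a smooth axisymmetric solution on `(0, T) × ℝ³` with bounded energy, finite
dissipation and locally integrable pressure (`WSl`). If `u` is unbounded near the time `T` then it
has a singular point. All the singular points lie on the axis, and `LargeFluxes` holds at each. -/
theorem result : ∃ d : ℝ → ℝ, (∀ M, 0 < d M) ∧ Antitone d ∧
    ∀ (ν T : ℝ) (u : ℝ → V → V) (p : ℝ → V → ℝ), 0 < ν →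
    (∀ (E : ℝ) (Ω : Set V), DSl ν T E Ω u p →
      (∀ t ∈ Ioo 0 T, ∀ (θ : ℝ), ∀ x ∈ Ω, rot θ x ∈ Ω → u t (rot θ x) = rot θ (u t x)) →
      ∀ a ∈ Ω, a 0 = 0 → a 1 = 0 → Sing T u a → LargeFluxes d ν T u a) ∧
    ∀ E : ℝ, WSl ν T E u p → (∀ t ∈ Ioo 0 T, Axi (u t)) → (Blow T u → ∃ a, Sing T u a) ∧
      ∀ a, Sing T u a → a 0 = 0 ∧ a 1 = 0 ∧ LargeFluxes d ν T u a := by
  obtain ⟨d, hd, han, hC⟩ := key
  refine ⟨d, hd, han, fun ν T u p hν => ⟨fun E Ω h hax a ha ha0 ha1 hs =>
    hC ν T E Ω u p hν h hax a ha ha0 ha1 hs, fun E h hax =>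
    ⟨fun hB => Q85.CL.sing_whole Q95.CL.far Q285.CL.wsc hν h hB, fun a hs => ?_⟩⟩⟩
  obtain ⟨h0, h1⟩ := Q67.AXI.axis_W Q67.AXI.hTra Q67.AXI.hWho Q67.AXI.hGR hν h hax hs
  exact ⟨h0, h1, hC ν T _ _ u p hν (Q85.CL.whole_D h a) (fun t ht θ x _ _ => hax t ht θ x) a
    (Metric.mem_ball_self (by norm_num)) h0 h1 hs⟩

end Pool.Agent.Results.MP_09540e_an.UnboundedFluxes
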